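import Pool.Agent.H251Z.WijMain

/-!
If the topology of a metric space `(X, d)` is completely metrizable (the metric `d` itself need
not be complete), then the Wijsman hyperspace of `(X, d)` is strongly alpha-favorable.
-/

set_option autoImplicit false

namespace Pool.Agent.Results.MP_491d6e_gt.AlphaFavorable

open Pool.Agent.H251Z.Wij

universe u

/-- For every completely metrizable space `X` and every compatible metric `d` on `X`, the second
player has a winning stationary strategy in the strong Choquet game on the nonempty closed subsets
of `X` with the Wijsman topology of `d`. -/
theorem result (X : Type u) [MetricSpace X] [TopologicalSpace.IsCompletelyMetrizableSpace X] :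
    StronglyAlphaFavorable (CL X) (wijsman X) :=
  main X

end Pool.Agent.Results.MP_491d6e_gt.AlphaFavorable
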